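import Mathlib

namespace Pool.Agent.Results.MP_062ce2_co.Full
open Finset MvPolynomial

variable {n m : ℕ}

/-- A multigraph has vertices `Fin n`, edges `Fin m`, and `E e` lists the two ends of `e`.
`adj E A u v`: some edge of `A` joins `u` and `v`. -/
def adj (E : Fin m → Fin n × Fin n) (A : Finset (Fin m)) (u v : Fin n) : Prop :=
  ∃ e ∈ A, s((E e).1, (E e).2) = s(u, v)

open Classical in
/-- vertex set of the component of `v` in the spanning subgraph `(V, A)` -/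
noncomputable def comp (E : Fin m → Fin n × Fin n) (A : Finset (Fin m)) (v : Fin n) :
    Finset (Fin n) := {u | Relation.ReflTransGen (adj E A) v u}

/-- the components of `(V, A)` -/
noncomputable def comps (E : Fin m → Fin n × Fin n) (A : Finset (Fin m)) :
    Finset (Finset (Fin n)) := univ.image (comp E A)

/-- the U-polynomial; `X (some i)` is `x_i` and `X none` is `y` -/
noncomputable def U (E : Fin m → Fin n × Fin n) : MvPolynomial (Option ℕ) ℤ :=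
  ∑ A : Finset (Fin m), (∏ C ∈ comps E A, X (some #C)) *
    (X none - 1) ^ (#A - (n - #(comps E A)))

/-- the strong U-polynomial; `X (i, j)` is `z_{i,j}` -/
noncomputable def strongU (E : Fin m → Fin n × Fin n) : MvPolynomial (ℕ × ℕ) ℤ :=
  ∑ A : Finset (Fin m), ∏ C ∈ comps E A,
    X (#C, #{e ∈ A | (E e).1 ∈ C ∧ (E e).2 ∈ C} + 1 - #C)

def Loopless (E : Fin m → Fin n × Fin n) : Prop := ∀ e, (E e).1 ≠ (E e).2

/-- isomorphism of multigraphs -/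
def Iso (E F : Fin m → Fin n × Fin n) : Prop :=
  ∃ (φ : Fin n ≃ Fin n) (ψ : Fin m ≃ Fin m),
    ∀ e, s(φ (E e).1, φ (E e).2) = s((F (ψ e)).1, (F (ψ e)).2)

def bit (N c : ℕ) : Bool := Nat.beq (Nat.land (Nat.shiftRight N c) 1) 1

lemma bit_eq (N c : ℕ) : bit N c = N.testBit c := by
  unfold bit Nat.testBit
  show Nat.beq ((N >>> c) &&& 1) 1 = _
  rw [Nat.and_comm]
  rcases Nat.mod_two_eq_zero_or_one (N >>> c) with h | h <;>
    simp [Nat.one_and_eq_mod_two, h] <;> rfl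

def gN (k : ℕ) : List (ℕ × ℕ × ℕ) → ℕ → ℕ
  | [], S => S
  | (e, a, b) :: l, S => cond (bit k e && (bit S a || bit S b))
      (gN k l (Nat.lor S (Nat.lor (Nat.pow 2 a) (Nat.pow 2 b)))) (gN k l S)

def sub (k : ℕ) : Finset (Fin m) := {e | bit k e = true}

lemma gN_sound (E : Fin m → Fin n × Fin n) (k : ℕ) (v : Fin n) (l : List (ℕ × ℕ × ℕ)) :
    ∀ S, (∀ t ∈ l, ∃ e : Fin m, t = (e.val, (E e).1.val, (E e).2.val)) →
    (∀ u : Fin n, bit S u = true → Relation.ReflTransGen (adj E (sub k)) v u) →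
    ∀ u : Fin n, bit (gN k l S) u = true → Relation.ReflTransGen (adj E (sub k)) v u := by
  induction l with
  | nil => intro S _ h; exact h
  | cons t l ih =>
    intro S hl hS
    obtain ⟨e, rfl⟩ := hl t (by simp)
    have hl' := fun t ht => hl t (List.mem_cons_of_mem _ ht)
    rw [gN]
    cases hb : (bit k e && (bit S (E e).1 || bit S (E e).2))
    · exact ih S hl' hS
    · rw [Bool.and_eq_true, Bool.or_eq_true] at hb
      have he : e ∈ sub k := mem_filter.2 ⟨mem_univ _, hb.1⟩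
      have key : Relation.ReflTransGen (adj E (sub k)) v (E e).1 ∧
          Relation.ReflTransGen (adj E (sub k)) v (E e).2 := by
        rcases hb.2 with h2 | h2
        · exact ⟨hS _ h2, (hS _ h2).tail ⟨e, he, rfl⟩⟩
        · exact ⟨(hS _ h2).tail ⟨e, he, Sym2.eq_swap⟩, hS _ h2⟩
      refine ih _ hl' fun u hu => ?_
      rw [bit_eq] at hu
      change (S ||| (2 ^ (E e).1.val ||| 2 ^ (E e).2.val)).testBit u = true at hu
      simp only [Nat.testBit_or, Bool.or_eq_true, Nat.testBit_two_pow, decide_eq_true_eq] at hu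
      rcases hu with hu | hu | hu
      · exact hS u (by rw [bit_eq]; exact hu)
      · rw [← Fin.ext hu]; exact key.1
      · rw [← Fin.ext hu]; exact key.2

def tt (l : List (ℕ × ℕ × ℕ)) (k : ℕ) (v : Fin n) : Finset (Fin n) :=
  {u | bit (gN k l (Nat.pow 2 v)) u = true}

def ok (E : Fin m → Fin n × Fin n) (l : List (ℕ × ℕ × ℕ)) (k : ℕ) (v : Fin n) : Prop :=
  bit (gN k l (Nat.pow 2 v)) v = true ∧ ∀ e : Fin m, bit k e = true →
    bit (gN k l (Nat.pow 2 v)) (E e).1 = bit (gN k l (Nat.pow 2 v)) (E e).2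

instance (E : Fin m → Fin n × Fin n) (l : List (ℕ × ℕ × ℕ)) (k : ℕ) (v : Fin n) :
    Decidable (ok E l k v) := by unfold ok; infer_instance

lemma comp_eq (E : Fin m → Fin n × Fin n) (k : ℕ) (v : Fin n) (l : List (ℕ × ℕ × ℕ))
    (hl : ∀ t ∈ l, ∃ e : Fin m, t = (e.val, (E e).1.val, (E e).2.val)) (h : ok E l k v) :
    comp E (sub k) v = tt l k v := by
  ext u
  simp only [comp, tt, mem_filter, mem_univ, true_and]
  refine ⟨fun hu => ?_, gN_sound E k v l _ hl (fun u hu => ?_) u⟩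
  · induction hu with
    | refl => exact h.1
    | tail _ h2 ih =>
      obtain ⟨e, he, h3⟩ := h2
      have := h.2 e (mem_filter.1 he).2
      rcases Sym2.eq_iff.1 h3 with ⟨rfl, rfl⟩ | ⟨rfl, rfl⟩
      exacts [this ▸ ih, this ▸ ih]
  · rw [bit_eq] at hu
    change (2 ^ v.val).testBit u = true at hu
    rw [Nat.testBit_two_pow, decide_eq_true_eq] at hu
    rw [← Fin.ext hu]

lemma sum_sub {M : Type*} [AddCommMonoid M] (f : Finset (Fin 9) → M) :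
    ∑ A, f A = ∑ k ∈ range 512, f (sub k) := by
  have hinj : Set.InjOn (sub : ℕ → Finset (Fin 9)) (range 512 : Finset ℕ) := by
    intro a ha b hb hab
    rw [mem_coe, mem_range] at ha hb
    refine Nat.eq_of_testBit_eq fun i => ?_
    by_cases hi : i < 9
    · have := Finset.ext_iff.1 hab ⟨i, hi⟩
      simp only [sub, mem_filter, mem_univ, true_and, bit_eq] at this
      exact Bool.eq_iff_iff.2 this
    · have : 2 ^ 9 ≤ 2 ^ i := Nat.pow_le_pow_right (by omega) (by omega)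
      rw [Nat.testBit_lt_two_pow (by omega), Nat.testBit_lt_two_pow (by omega)]
  have hu : (range 512).image (sub : ℕ → Finset (Fin 9)) = univ :=
    eq_univ_of_card _ (by rw [card_image_of_injOn hinj]; simp)
  rw [← sum_image hinj, hu]

def G : Fin 9 → Fin 6 × Fin 6 :=
  ![(0, 1), (0, 2), (1, 2), (0, 3), (0, 3), (2, 3), (0, 4), (1, 4), (1, 5)]

def H : Fin 9 → Fin 6 × Fin 6 :=
  ![(0, 1), (0, 2), (1, 2), (0, 3), (0, 3), (1, 3), (1, 4), (2, 4), (0, 5)]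

def lG : List (ℕ × ℕ × ℕ) := [(8, 1, 5), (7, 1, 4), (6, 0, 4), (5, 2, 3), (4, 0, 3), (3, 0, 3), (1, 0, 2), (2, 1, 2), (6, 0, 4), (7, 1, 4), (6, 0, 4), (5, 2, 3), (0, 0, 1), (1, 0, 2), (2, 1, 2), (3, 0, 3), (4, 0, 3), (5, 2, 3), (6, 0, 4), (7, 1, 4), (8, 1, 5)]

def tG : List ℕ := [0, 1, 1, 2, 1, 2, 2, 3, 1, 2, 2, 4, 5, 4, 4, 6, 1, 2, 2, 4, 5, 4, 4, 6, 7, 3, 3, 6, 8, 6, 6, 9, 1, 5, 2, 4, 2, 4, 4, 6, 2, 4, 3, 6, 4, 6, 6, 9, 2, 4, 3, 6, 4, 6, 6, 9, 3, 6, 10, 9, 6, 9, 9, 11, 1, 2, 2, 4, 5, 4, 4, 6, 2, 4, 4, 12, 13, 12, 12, 14, 2, 4, 4, 12, 13, 12, 12, 14, 3, 6, 6, 14, 15, 14, 14, 16, 5, 13, 4, 12, 13, 12, 12, 14, 4, 12, 6, 14, 12, 14, 14, 16, 4, 12, 6, 14, 12, 14, 14, 16, 6, 14, 9, 16, 14, 16, 16, 17, 1, 2, 5, 4, 2, 4, 4, 6, 5, 4, 13, 12, 13, 12, 12, 14, 5, 4, 13, 12, 13, 12, 12, 14, 8, 6, 15, 14, 15, 14, 14, 16, 5, 13, 13, 12, 4, 12, 12, 14, 13, 12, 15, 14, 12, 14,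 14, 16, 13, 12, 15, 14, 12, 14, 14, 16, 15, 14, 18, 16, 14, 16, 16, 17, 2, 3, 4, 6, 4, 6, 6, 9, 4, 6, 12, 14, 12, 14, 14, 16, 4, 6, 12, 14, 12, 14, 14, 16, 6, 9, 14, 16, 14, 16, 16, 17, 13, 15, 12, 14, 12, 14, 14, 16, 12, 14, 14, 16, 14, 16, 16, 17, 12, 14, 14, 16, 14, 16, 16, 17, 14, 16, 16, 17, 16, 17, 17, 19, 1, 2, 5, 4, 2, 4, 4, 6, 5, 4, 13, 12, 13, 12, 12, 14, 5, 4, 13, 12, 13, 12, 12, 14, 8, 6, 15, 14, 15, 14, 14, 16, 5, 13, 13, 12, 4, 12, 12, 14, 13, 12, 15, 14, 12, 14, 14, 16, 13, 12, 15, 14, 12, 14, 14, 16, 15, 14, 18, 16, 14, 16, 16, 17, 5, 4, 13, 12, 13, 12, 12, 14, 13, 12, 20, 21, 22, 21, 21, 23, 13, 12, 20, 21, 22, 21, 21, 23, 15, 14, 24, 23, 25, 23, 23, 26, 27, 20, 20, 21, 20, 21, 21, 23, 20, 21, 24, 23, 21, 23, 23, 26, 20, 21, 24, 23, 21, 23, 23, 26, 24, 23, 28, 26, 23, 26, 26, 29, 2, 4, 13, 12, 4, 12, 12, 14, 13, 12, 22, 21, 20, 21, 21, 23, 13,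 12, 22, 21, 20, 21, 21, 23, 15, 14, 25, 23, 24, 23, 23, 26, 13, 20, 22, 21, 12, 21, 21, 23, 22, 21, 25, 23, 21, 23, 23, 26, 22, 21, 25, 23, 21, 23, 23, 26, 25, 23, 30, 26, 23, 26, 26, 29, 4, 6, 12, 14, 12, 14, 14, 16, 12, 14, 21, 23, 21, 23, 23, 26, 12, 14, 21, 23, 21, 23, 23, 26, 14, 16, 23, 26, 23, 26, 26, 29, 20, 24, 21, 23, 21, 23, 23, 26, 21, 23, 23, 26, 23, 26, 26, 29, 21, 23, 23, 26, 23, 26, 26, 29, 23, 26, 26, 29, 26, 29, 29, 31]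

def lH : List (ℕ × ℕ × ℕ) := [(8, 0, 5), (7, 2, 4), (6, 1, 4), (5, 1, 3), (4, 0, 3), (3, 0, 3), (1, 0, 2), (2, 1, 2), (6, 1, 4), (7, 2, 4), (6, 1, 4), (5, 1, 3), (0, 0, 1), (1, 0, 2), (2, 1, 2), (3, 0, 3), (4, 0, 3), (5, 1, 3), (6, 1, 4), (7, 2, 4), (8, 0, 5)]

def tH : List ℕ := [0, 1, 1, 2, 1, 2, 2, 3, 1, 2, 2, 4, 5, 4, 4, 6, 1, 2, 2, 4, 5, 4, 4, 6, 7, 3, 3, 6, 8, 6, 6, 9, 1, 2, 5, 4, 2, 4, 4, 6, 2, 3, 4, 6, 4, 6, 6, 9, 2, 3, 4, 6, 4, 6, 6, 9, 3, 10, 6, 9, 6, 9, 9, 11, 1, 2, 5, 4, 2, 4, 4, 6, 5, 4, 13, 12, 13, 12, 12, 14, 5, 4, 13, 12, 13, 12, 12, 14, 8, 6, 15, 14, 15, 14, 14, 16, 2, 4, 13, 12, 4, 12, 12, 14, 4, 6, 12, 14, 12, 14, 14, 16, 4, 6, 12, 14, 12, 14, 14, 16, 6, 9, 14, 16, 14, 16, 16, 17, 1, 5, 2, 4, 2, 4, 4, 6, 5, 13, 4, 12, 13, 12, 12, 14, 5, 13, 4, 12, 13, 12, 12, 14, 8, 15, 6, 14, 15, 14, 14, 16, 5, 13, 13, 12, 4, 12, 12, 14, 13, 15, 12, 14, 12,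 14, 14, 16, 13, 15, 12, 14, 12, 14, 14, 16, 15, 18, 14, 16, 14, 16, 16, 17, 2, 4, 4, 6, 3, 6, 6, 9, 13, 12, 12, 14, 15, 14, 14, 16, 13, 12, 12, 14, 15, 14, 14, 16, 15, 14, 14, 16, 18, 16, 16, 17, 4, 12, 12, 14, 6, 14, 14, 16, 12, 14, 14, 16, 14, 16, 16, 17, 12, 14, 14, 16, 14, 16, 16, 17, 14, 16, 16, 17, 16, 17, 17, 19, 1, 2, 2, 4, 5, 4, 4, 6, 2, 4, 4, 12, 13, 12, 12, 14, 2, 4, 4, 12, 13, 12, 12, 14, 3, 6, 6, 14, 15, 14, 14, 16, 5, 4, 13, 12, 13, 12, 12, 14, 4, 6, 12, 14, 12, 14, 14, 16, 4, 6, 12, 14, 12, 14, 14, 16, 6, 9, 14, 16, 14, 16, 16, 17, 5, 4, 13, 12, 13, 12, 12, 14, 13, 12, 20, 21, 22, 21, 21, 23, 13, 12, 20, 21, 22, 21, 21, 23, 15, 14, 24, 23, 25, 23, 23, 26, 13, 12, 22, 21, 20, 21, 21, 23, 12, 14, 21, 23, 21, 23, 23, 26, 12, 14, 21, 23, 21, 23, 23, 26, 14, 16, 23, 26, 23, 26, 26, 29, 5, 13, 4, 12, 13, 12, 12, 14, 13, 20, 12, 21, 22, 21, 21, 23, 13,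 20, 12, 21, 22, 21, 21, 23, 15, 24, 14, 23, 25, 23, 23, 26, 27, 20, 20, 21, 20, 21, 21, 23, 20, 24, 21, 23, 21, 23, 23, 26, 20, 24, 21, 23, 21, 23, 23, 26, 24, 28, 23, 26, 23, 26, 26, 29, 13, 12, 12, 14, 15, 14, 14, 16, 22, 21, 21, 23, 25, 23, 23, 26, 22, 21, 21, 23, 25, 23, 23, 26, 25, 23, 23, 26, 30, 26, 26, 29, 20, 21, 21, 23, 24, 23, 23, 26, 21, 23, 23, 26, 23, 26, 26, 29, 21, 23, 23, 26, 23, 26, 26, 29, 23, 26, 26, 29, 26, 29, 29, 31]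

def K : List (ℕ × Multiset ℕ) := [(0, ↑[1, 1, 1, 1, 1, 1]), (0, ↑[1, 1, 1, 1, 2]), (0, ↑[1, 1, 1, 3]), (1, ↑[1, 1, 1, 3]), (0, ↑[1, 1, 4]), (0, ↑[1, 1, 2, 2]), (1, ↑[1, 1, 4]), (1, ↑[1, 1, 1, 1, 2]), (1, ↑[1, 1, 2, 2]), (2, ↑[1, 1, 4]), (2, ↑[1, 1, 1, 3]), (3, ↑[1, 1, 4]), (0, ↑[1, 5]), (0, ↑[1, 2, 3]), (1, ↑[1, 5]), (1, ↑[1, 2, 3]), (2, ↑[1, 5]), (3, ↑[1, 5]), (2, ↑[1, 2, 3]), (4, ↑[1, 5]), (0, ↑[2, 4]), (0, ↑[6]), (0, ↑[3, 3]), (1, ↑[6]), (1, ↑[2, 4]), (1, ↑[3, 3]), (2, ↑[6]), (0, ↑[2, 2, 2]), (2, ↑[2, 4]), (3, ↑[6]), (2, ↑[3, 3]), (4, ↑[6])]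

def cs (l : List (ℕ × ℕ × ℕ)) (k : ℕ) : Finset (Finset (Fin 6)) := univ.image (tt l k)

def key (l : List (ℕ × ℕ × ℕ)) (k : ℕ) : ℕ × Multiset ℕ :=
  (#(sub k : Finset (Fin 9)) - (6 - #(cs l k)), (cs l k).val.map card)

def val (p : ℕ × ℕ) : ℤ := if p = (3, 1) then 1 else 0

def term (E : Fin 9 → Fin 6 × Fin 6) (l : List (ℕ × ℕ × ℕ)) (k : ℕ) : ℤ :=
  ∏ C ∈ cs l k, val (#C, #{e ∈ sub k | (E e).1 ∈ C ∧ (E e).2 ∈ C} + 1 - #C)

lemma split (P : ℕ → Prop) (h : ∀ i < 8, ∀ j < 64, P (64 * i + j)) : ∀ k < 512, P k := by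
  intro k hk
  have := h (k / 64) (by omega) (k % 64) (by omega)
  rwa [Nat.div_add_mod] at this

lemma okG : ∀ k < 512, (∀ v, ok G lG k v) ∧ key lG k = K.getD (tG.getD k 0) (0, 0) ∧
    term G lG k = 0 := by
  refine split _ fun i hi => ?_
  interval_cases i <;> decide +kernel

lemma okH : ∀ k < 512, (∀ v, ok H lH k v) ∧ key lH k = K.getD (tH.getD k 0) (0, 0) ∧
    term H lH k = if k = 476 then 1 else 0 := by
  refine split _ fun i hi => ?_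
  interval_cases i <;> decide +kernel

lemma cG (k : ℕ) (hk : k < 512) : comps G (sub k) = cs lG k :=
  congrArg (fun f => univ.image f) (funext fun v =>
    comp_eq G k v lG (by decide +kernel) ((okG k hk).1 v))

lemma cH (k : ℕ) (hk : k < 512) : comps H (sub k) = cs lH k :=
  congrArg (fun f => univ.image f) (funext fun v =>
    comp_eq H k v lH (by decide +kernel) ((okH k hk).1 v))

lemma keys : (range 512).val.map (fun k => tG.getD k 0) =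
    (range 512).val.map (fun k => tH.getD k 0) := by decide +kernel

lemma U_eq (E : Fin 9 → Fin 6 × Fin 6) (l : List (ℕ × ℕ × ℕ)) (t : List ℕ)
    (h : ∀ k < 512, comps E (sub k) = cs l k)
    (h2 : ∀ k < 512, key l k = K.getD (t.getD k 0) (0, 0)) :
    U E = (((range 512).val.map (fun k => t.getD k 0)).map fun c =>
      ((K.getD c (0, 0)).2.map fun i => X (some i)).prod *
        (X none - 1) ^ (K.getD c (0, 0)).1).sum := by
  rw [U, sum_sub, Multiset.map_map, Finset.sum]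
  refine congrArg Multiset.sum (Multiset.map_congr rfl fun k hk => ?_)
  have hk' : k < 512 := mem_range.1 hk
  simp only [Function.comp, ← h2 k hk', key, h k hk', Multiset.map_map, Finset.prod]

lemma ev (E : Fin 9 → Fin 6 × Fin 6) (l : List (ℕ × ℕ × ℕ))
    (h : ∀ k < 512, comps E (sub k) = cs l k) :
    eval val (strongU E) = ∑ k ∈ range 512, term E l k := by
  rw [strongU, sum_sub, map_sum]
  refine sum_congr rfl fun k hk => ?_
  simp only [map_prod, eval_X, h k (mem_range.1 hk), term]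

theorem result : ∃ (n m : ℕ) (E F : Fin m → Fin n × Fin n), Loopless E ∧ Loopless F ∧
    ¬ Iso E F ∧ U E = U F ∧ strongU E ≠ strongU F := by
  refine ⟨6, 9, G, H, by unfold Loopless; decide, by unfold Loopless; decide, ?_, ?_, ?_⟩
  · rintro ⟨φ, ψ, h⟩
    have h1 : ∀ a b : Fin 9, a ≠ b → s((H a).1, (H a).2) = s((H b).1, (H b).2) →
        (0 : Fin 6) ∈ s((H a).1, (H a).2) := by decide +kernel
    have h2 : ∀ a : Fin 9, (5 : Fin 6) ∈ s((H a).1, (H a).2) → a = 8 := by decide +kernel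
    have h3 : ∀ (e : Fin 9) (u w : Fin 6), u ∈ s((0 : Fin 6), 3) → u ≠ w →
        u ∈ s((G e).1, (G e).2) → w ∈ s((G e).1, (G e).2) →
        ∃ e', w ∈ s((G e').1, (G e').2) ∧ e' ≠ e := by decide +kernel
    have mem : ∀ e x, φ.symm x ∈ s((G e).1, (G e).2) ↔ x ∈ s((H (ψ e)).1, (H (ψ e)).2) := by
      intro e x
      rw [← h]
      simp only [Sym2.mem_iff, Equiv.symm_apply_eq]
    have h0 : φ.symm 0 ∈ s((0 : Fin 6), 3) :=
      (mem 3 0).2 (h1 _ (ψ 4) (ψ.injective.ne (by decide)) ((h 3).symm.trans (h 4)))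
    obtain ⟨e', he, hne⟩ := h3 (ψ.symm 8) (φ.symm 0) (φ.symm 5) h0
      (φ.symm.injective.ne (by decide))
      ((mem _ _).2 (by rw [Equiv.apply_symm_apply]; decide))
      ((mem _ _).2 (by rw [Equiv.apply_symm_apply]; decide))
    exact hne ((Equiv.eq_symm_apply ψ).2 (h2 _ ((mem _ _).1 he)))
  · rw [U_eq G lG tG cG fun k hk => (okG k hk).2.1, U_eq H lH tH cH fun k hk => (okH k hk).2.1,
      keys]
  · intro h
    have := congrArg (eval val) h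
    rw [ev G lG cG, ev H lH cH, sum_congr rfl fun k hk => (okG k (mem_range.1 hk)).2.2,
      sum_congr rfl fun k hk => (okH k (mem_range.1 hk)).2.2] at this
    simp at this

end Pool.Agent.Results.MP_062ce2_co.Full
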